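import Pool.Agent.Helper93.OR.Defs
import Pool.Agent.Helper24.TX.Asm
import Pool.Agent.Helper56.UG.Cv

/-!
# OR, block UB: the upper bound for all displacements
-/

set_option autoImplicit false
open MeasureTheory Set Filter Topology
open Pool.Agent.Helper93.UG (zc sp)
open Pool.Agent.Helper57.NS (cnt)

namespace Pool.Agent.Helper69.OR

/-- the count in `[0, x]` as a count of ordinates -/
lemma cnt_eq {T : ℝ} (hs : 0 < sp T) (t x : ℝ) : cnt T t (Icc 0 x) = (zc (Icc t (t + x * sp T)) : ℝ) := by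
  unfold cnt
  congr 2
  ext u
  simp only [mem_ofPred_eq, mem_Icc, div_le_iff₀ hs, le_div_iff₀ hs, zero_mul]
  constructor
  · rintro ⟨h1, h2⟩
    exact ⟨by linarith, by linarith⟩
  · rintro ⟨h1, h2⟩
    exact ⟨by linarith, by linarith⟩

/-- between the integers -/
lemma point {T t x W : ℝ} {N : ℕ} (hs : 0 < sp T) (hx : 0 ≤ x) (hxN : x < N) (_hW : 0 ≤ W)
    (h : ∀ c ∈ Finset.Icc 1 N, |(zc (Ico t (t + (c : ℝ) * sp T)) : ℝ) - c| < W) :
    |cnt T t (Icc 0 x) - x| ≤ 1 + W := by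
  rw [cnt_eq hs]
  have h1 : (⌊x⌋₊ : ℝ) ≤ x := Nat.floor_le hx
  have h2 : x < (⌊x⌋₊ : ℝ) + 1 := Nat.lt_floor_add_one x
  have h3 : ⌊x⌋₊ + 1 ≤ N := by
    have : (⌊x⌋₊ : ℝ) < N := lt_of_le_of_lt h1 hxN
    exact_mod_cast this
  have h4 := h (⌊x⌋₊ + 1) (Finset.mem_Icc.mpr ⟨by omega, h3⟩)
  push_cast at h4
  have h5 : (zc (Icc t (t + x * sp T)) : ℝ) ≤ zc (Ico t (t + ((⌊x⌋₊ : ℝ) + 1) * sp T)) := by
    have hsub : Icc t (t + x * sp T) ⊆ Ico t (t + ((⌊x⌋₊ : ℝ) + 1) * sp T) :=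
      fun u hu => ⟨hu.1, lt_of_le_of_lt hu.2 (by nlinarith)⟩
    exact Nat.cast_le.mpr (Pool.Agent.Helper56.UG.zc_mono hsub Ico_subset_Icc_self)
  rw [abs_lt] at h4
  rw [abs_le]
  constructor
  · rcases Nat.eq_zero_or_pos ⌊x⌋₊ with h6 | h6
    · rw [h6] at h2
      have : (0 : ℝ) ≤ zc (Icc t (t + x * sp T)) := Nat.cast_nonneg _
      push_cast at h2
      linarith
    · have h7 := h ⌊x⌋₊ (Finset.mem_Icc.mpr ⟨h6, by omega⟩)
      have h8 : (zc (Ico t (t + (⌊x⌋₊ : ℝ) * sp T)) : ℝ) ≤ zc (Icc t (t + x * sp T)) := by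
        have hsub : Ico t (t + (⌊x⌋₊ : ℝ) * sp T) ⊆ Icc t (t + x * sp T) :=
          fun u hu => ⟨hu.1, hu.2.le.trans (by nlinarith)⟩
        exact Nat.cast_le.mpr (Pool.Agent.Helper56.UG.zc_mono hsub (Subset.refl _))
      rw [abs_lt] at h7
      linarith
  · linarith

/-- the numerical side: the moment term -/
lemma mom_le {A B l c C : ℝ} {k : ℕ} (hA : 48 ≤ A) (hl : 1 ≤ l) (hk : (k : ℝ) ≤ A * l / 8) (hk1 : A * l / 8 < k + 1)
    (hc0 : 0 ≤ c + C) (hc : c + C ≤ 3 * l) (hB : A ≤ B ^ 2) (hB0 : 0 < B) :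
    (k.factorial : ℝ) * (2 / Real.pi ^ 2 * (c + C) / (B * l) ^ 2) ^ k ≤ Real.exp (-(3 * l)) := by
  have hpi : 9 ≤ Real.pi ^ 2 := by nlinarith [Real.pi_gt_three]
  have hfac : (k.factorial : ℝ) ≤ (k : ℝ) ^ k := by exact_mod_cast Nat.factorial_le_pow k
  have h1 : 2 / Real.pi ^ 2 * (c + C) / (B * l) ^ 2 ≤ 2 / 3 / (A * l) := by
    have h2 : 2 / Real.pi ^ 2 ≤ 2 / 9 := by gcongr
    have h3 : A * l ^ 2 ≤ (B * l) ^ 2 := by
      rw [mul_pow]
      gcongr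
    calc 2 / Real.pi ^ 2 * (c + C) / (B * l) ^ 2 ≤ 2 / 9 * (3 * l) / (A * l ^ 2) := by gcongr
      _ = 2 / 3 / (A * l) := by
        field_simp
        ring
  have h4 : 0 ≤ 2 / Real.pi ^ 2 * (c + C) / (B * l) ^ 2 := by positivity
  calc (k.factorial : ℝ) * (2 / Real.pi ^ 2 * (c + C) / (B * l) ^ 2) ^ k
      ≤ (k : ℝ) ^ k * (2 / 3 / (A * l)) ^ k := by gcongr
    _ = (k * (2 / 3 / (A * l))) ^ k := by rw [mul_pow]
    _ ≤ (1 / 12) ^ k := by
      gcongr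
      calc (k : ℝ) * (2 / 3 / (A * l)) ≤ A * l / 8 * (2 / 3 / (A * l)) := by gcongr
        _ = 1 / 12 := by
          field_simp
          norm_num
    _ ≤ Real.exp (-1) ^ k := by
      gcongr
      rw [Real.exp_neg]
      have := Real.exp_one_lt_d9
      rw [one_div]
      gcongr
      linarith
    _ = Real.exp (-(k : ℝ)) := by
      rw [← Real.exp_nat_mul]
      ring_nf
    _ ≤ Real.exp (-(3 * l)) := by
      apply Real.exp_le_exp.mpr
      nlinarith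

/-- UB: the upper bound for the displacements -/
theorem ub_main {δ : ℝ} (hδ : 0 < δ) (_hδ1 : δ ≤ 1) : ∃ C T₀ : ℝ, 1 ≤ C ∧ ∀ T L : ℝ, T₀ ≤ T → C ≤ L →
    L ≤ Real.log T ^ (1 - δ) →
    ∃ E : Set ℝ, volume E ≤ ENNReal.ofReal (C * L ^ (-1 : ℝ) * T) ∧ ∀ t ∈ Icc T (2 * T), t ∉ E → ∀ x ∈ Icc 0 L,
      |cnt T t (Icc 0 x) - x| ≤ C * Real.log L := by
  obtain ⟨C₀, κ, M₀, T₁, hC₀, hκ, hM₀, hm⟩ := Pool.Agent.Helper24.TX.master
  obtain ⟨A, hA⟩ : ∃ A : ℝ, A = 48 + 3 / κ := ⟨_, rfl⟩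
  have hκ3 : 0 < 3 / κ := by positivity
  have hA48 : 48 ≤ A := by rw [hA]; linarith
  have hAκ : 3 ≤ κ * A := by
    rw [hA, mul_add, mul_div_cancel₀ _ hκ.ne']
    linarith
  have hA0 : 0 < A := by linarith
  have hAA : A ≤ A ^ 2 := by
    rw [sq]
    exact le_mul_of_one_le_left hA0.le (by linarith)
  have hCA : 0 ≤ C₀ * A := by positivity
  have e1 : ∀ᶠ y : ℝ in atTop, Real.log y ≤ 1 / 2 * y ^ δ := by
    filter_upwards [(isLittleO_log_rpow_atTop hδ).bound (show (0 : ℝ) < 1 / 2 by norm_num), eventually_ge_atTop 1]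
      with y hy h1
    rwa [Real.norm_of_nonneg (Real.log_nonneg h1), Real.norm_of_nonneg (by positivity)] at hy
  have e2 : ∀ᶠ y : ℝ in atTop, Real.log y ≤ 1 / A * y := by
    filter_upwards [(isLittleO_log_rpow_atTop one_pos).bound (show (0 : ℝ) < 1 / A by positivity), eventually_ge_atTop 1]
      with y hy h1
    rw [Real.norm_of_nonneg (Real.log_nonneg h1), Real.norm_of_nonneg (by positivity), Real.rpow_one] at hy
    exact hy
  obtain ⟨T₂, hT₂⟩ := eventually_atTop.mp (Real.tendsto_log_atTop.eventually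
    (e1.and (e2.and (eventually_ge_atTop 1))))
  have hexp : 1 ≤ Real.exp (1 + C₀ + M₀) := Real.one_le_exp (by linarith)
  refine ⟨Real.exp (1 + C₀ + M₀) + (1 + A + C₀ * A) + 4 * C₀, max (max T₁ T₂) 1, by linarith, fun T L hT hL hLT => ?_⟩
  obtain ⟨C, hC⟩ : ∃ C : ℝ, C = Real.exp (1 + C₀ + M₀) + (1 + A + C₀ * A) + 4 * C₀ := ⟨_, rfl⟩
  rw [← hC] at hL ⊢
  have hT1 : T₁ ≤ T := (le_max_left _ _).trans ((le_max_left _ _).trans hT)
  have hT2 : T₂ ≤ T := (le_max_right _ _).trans ((le_max_left _ _).trans hT)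
  have hT3 : 1 ≤ T := (le_max_right _ _).trans hT
  obtain ⟨f1, f2, f3⟩ := hT₂ T hT2
  obtain ⟨y, hy⟩ : ∃ y : ℝ, y = Real.log T := ⟨_, rfl⟩
  rw [← hy] at f1 f2 f3 hLT
  have hy0 : 0 < y := by linarith
  have hly0 : 0 ≤ Real.log y := Real.log_nonneg f3
  have hLe : Real.exp (1 + C₀ + M₀) ≤ L := by linarith
  have hL1 : 1 ≤ L := hexp.trans hLe
  have hL0 : 0 < L := by linarith
  obtain ⟨l, hl⟩ : ∃ l : ℝ, l = Real.log L := ⟨_, rfl⟩
  have hl1 : 1 + C₀ + M₀ ≤ l := by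
    rw [hl, Real.le_log_iff_exp_le hL0]
    exact hLe
  have hl0 : 1 ≤ l := by linarith
  have hLy : L ≤ y := hLT.trans ((Real.rpow_le_rpow_of_exponent_le f3 (by linarith)).trans (Real.rpow_one y).le)
  have hly : l ≤ Real.log y := by
    rw [hl]
    exact Real.log_le_log hL0 hLy
  have hMy : A * l ≤ y := by
    calc A * l ≤ A * Real.log y := by gcongr
      _ ≤ A * (1 / A * y) := by gcongr
      _ = y := by field_simp
  have hM0 : M₀ ≤ A * l := by
    have := mul_le_mul_of_nonneg_right (show (1 : ℝ) ≤ A by linarith) (show 0 ≤ l by linarith)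
    linarith
  have hV0 : 0 < A * l := by positivity
  obtain ⟨k, hk⟩ : ∃ k : ℕ, k = ⌊A * l / 8⌋₊ := ⟨_, rfl⟩
  have hk1 : (k : ℝ) ≤ A * l / 8 := by
    rw [hk]
    exact Nat.floor_le (by positivity)
  have hk2 : A * l / 8 < k + 1 := by
    rw [hk]
    exact Nat.lt_floor_add_one _
  obtain ⟨N, hN⟩ : ∃ N : ℕ, N = ⌊L⌋₊ + 1 := ⟨_, rfl⟩
  have hN1 : (N : ℝ) ≤ 2 * L := by
    rw [hN]
    push_cast
    linarith [Nat.floor_le hL0.le]
  have hN2 : L < N := by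
    rw [hN]
    push_cast
    exact Nat.lt_floor_add_one _
  have hLl : Real.exp (-(3 * l)) ≤ L ^ (-1 : ℝ) / L := by
    rw [Real.rpow_neg_one, hl, ← mul_neg, ← Real.exp_log hL0, ← Real.exp_neg, ← Real.exp_sub, Real.exp_log hL0]
    apply Real.exp_le_exp.mpr
    rw [← hl]
    linarith
  have hone : ∀ c ∈ Finset.Icc 1 N, volume {t : ℝ | T / 2 ≤ t ∧ t ≤ 3 * T ∧
      A * l + C₀ * (A * l) ≤ |(zc (Ico t (t + (c : ℝ) * sp T)) : ℝ) - c|} ≤ ENNReal.ofReal (2 * C₀ * (L ^ (-1 : ℝ) / L) * T) := by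
    intro c hc
    rw [Finset.mem_Icc] at hc
    have hc1 : (1 : ℝ) ≤ c := by exact_mod_cast hc.1
    have hc2 : (c : ℝ) ≤ 2 * L := le_trans (by exact_mod_cast hc.2) hN1
    have hc3 : (c : ℝ) * Real.log (Real.log T) ≤ Real.log T := by
      rw [← hy]
      calc (c : ℝ) * Real.log y ≤ 2 * y ^ (1 - δ) * (1 / 2 * y ^ δ) := by
            gcongr
            linarith
        _ = y ^ (1 - δ) * y ^ δ := by ring
        _ = y := by
          rw [← Real.rpow_add hy0, sub_add_cancel, Real.rpow_one]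
    have hlc0 : 0 ≤ Real.log c := Real.log_nonneg hc1
    have hlc : Real.log c + C₀ ≤ 3 * l := by
      have h1 : Real.log c ≤ Real.log 2 + l := by
        rw [hl, ← Real.log_mul (by norm_num) hL0.ne']
        exact Real.log_le_log (by linarith) hc2
      have h2 := Real.log_two_lt_d9
      linarith
    refine (hm T c (A * l) hT1 hc1 hc3 hM0 (by rw [← hy]; exact hMy) (A * l) k hV0 hk1).trans
      (ENNReal.ofReal_le_ofReal ?_)
    have h3 := mom_le (A := A) (B := A) hA48 hl0 hk1 hk2 (by linarith) hlc hAA hA0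
    have h4 : Real.exp (-(κ * (A * l))) ≤ Real.exp (-(3 * l)) := by
      apply Real.exp_le_exp.mpr
      have := mul_le_mul_of_nonneg_right hAκ (show 0 ≤ l by linarith)
      linarith
    have h5 : 0 ≤ T := by linarith
    apply mul_le_mul_of_nonneg_right _ h5
    calc C₀ * Real.exp (-(κ * (A * l))) +
          C₀ * ((k.factorial : ℝ) * (2 / Real.pi ^ 2 * (Real.log c + C₀) / (A * l) ^ 2) ^ k)
        ≤ C₀ * Real.exp (-(3 * l)) + C₀ * Real.exp (-(3 * l)) := by gcongr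
      _ = 2 * C₀ * Real.exp (-(3 * l)) := by ring
      _ ≤ 2 * C₀ * (L ^ (-1 : ℝ) / L) := by gcongr
  refine ⟨⋃ c ∈ Finset.Icc 1 N, {t : ℝ | T / 2 ≤ t ∧ t ≤ 3 * T ∧
      A * l + C₀ * (A * l) ≤ |(zc (Ico t (t + (c : ℝ) * sp T)) : ℝ) - c|}, ?_, fun t ht htE x hx => ?_⟩
  · refine (measure_biUnion_finset_le _ _).trans ((Finset.sum_le_sum hone).trans ?_)
    rw [Finset.sum_const, Nat.card_Icc, Nat.add_sub_cancel, nsmul_eq_mul, ← ENNReal.ofReal_natCast,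
      ← ENNReal.ofReal_mul (Nat.cast_nonneg _)]
    apply ENNReal.ofReal_le_ofReal
    have h6 : 0 ≤ L ^ (-1 : ℝ) := by positivity
    have h7 : 0 ≤ T := by linarith
    calc (N : ℝ) * (2 * C₀ * (L ^ (-1 : ℝ) / L) * T) ≤ 2 * L * (2 * C₀ * (L ^ (-1 : ℝ) / L) * T) := by gcongr
      _ = 4 * C₀ * L ^ (-1 : ℝ) * T := by
        field_simp
        ring
      _ ≤ C * L ^ (-1 : ℝ) * T := by
        gcongr
        rw [hC]
        linarith
  · have hs : 0 < sp T := by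
      unfold sp
      rw [← hy]
      positivity
    have h8 := point hs hx.1 (lt_of_le_of_lt hx.2 hN2) (W := A * l + C₀ * (A * l)) (by positivity) (fun c hc => by
      by_contra h9
      rw [not_lt] at h9
      apply htE
      rw [Set.mem_iUnion₂]
      exact ⟨c, hc, by linarith [ht.1], by linarith [ht.2], h9⟩)
    refine h8.trans ?_
    rw [← hl]
    calc 1 + (A * l + C₀ * (A * l)) ≤ (1 + A + C₀ * A) * l := by linarith
      _ ≤ C * l := by
        gcongr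
        rw [hC]
        linarith

end Pool.Agent.Helper69.OR
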